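import Mathlib
import Pool.Agent.H.MP_556855_lc.A

set_option autoImplicit false

namespace Pool.Agent.Results.MP_556855_lc.Qset

open Set Cardinal Pool.Agent.H.MP_556855_lc

theorem result :
    (∀ X : Set ℝ, QSet X → ∀ κ ≤ #X,
      ∃ A : Set (Set ℕ), AD A ∧ #A = κ ∧ PropA (psi A) ∧ SelA (psi A)) ∧
    ((∃ X : Set ℝ, QSet X ∧ ¬ X.Countable) → dd = aleph 1 →
      ∃ A : Set (Set ℕ), AD A ∧ #A = dd ∧ PropA (psi A) ∧ SelA (psi A)) := by
  refine ⟨fun X hX κ h => qa hX h, fun ⟨X, hX, hc⟩ hd => qa hX ?_⟩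
  rw [hd, ← succ_aleph0]
  exact Order.succ_le_of_lt (not_le.1 fun h => hc (le_aleph0_iff_set_countable.1 h))

end Pool.Agent.Results.MP_556855_lc.Qset
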